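import Mathlib

/-!
# Stabbing queries on R-trees cost `Ω((N / B) ^ (1 - 1 / d))` in the worst case

To a point `x` of the grid `{0, …, M - 1} ^ d` assign the box
`∏ [-x_j, M - x_{j-1}]` (indices modulo `d`). All these boxes contain the origin. The query with
coordinate `-(c + 1/2)` in direction `i`, coordinate `M - c - 1/2` in direction `i + 1` and `0`
elsewhere is contained in no box, but it is contained in the bounding box of every group of boxes
with a member with `x_i ≤ c` and a member with `x_i ≥ c + 1`. So the queries simulate the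
hyperplanes between the layers of the grid.
-/

open Finset

namespace Pool.Agent.Results.MP_a7848c_lc.StabbingLowerBound

/-! ### The definitions used in the statement -/

/-- An axis-parallel box `∏ [lo i, hi i]` in `ℝ ^ d`. -/
@[ext]
structure Box (d : ℕ) where
  /-- The lower endpoints. -/
  lo : Fin d → ℝ
  /-- The upper endpoints. -/
  hi : Fin d → ℝ
  le : ∀ i, lo i ≤ hi i

variable {d : ℕ}

/-- The points of a box. -/
def Box.pts (b : Box d) : Set (Fin d → ℝ) := {q | ∀ i, b.lo i ≤ q i ∧ q i ≤ b.hi i}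

/-- The minimal axis-parallel bounding box of a collection of boxes: the intersection of all boxes
which contain every box of the collection. -/
def bounding (m : Multiset (Box d)) : Set (Fin d → ℝ) :=
  {q | ∀ b : Box d, (∀ s ∈ m, s.pts ⊆ b.pts) → q ∈ b.pts}

/-- Rooted trees of height `h`, with all leaves at depth `h`. A leaf stores a set of boxes; an
inner node has `k` children. -/
inductive Tree (d : ℕ) : ℕ → Type
  | leaf (objs : Finset (Box d)) : Tree d 0
  | node {h : ℕ} (k : ℕ) (child : Fin k → Tree d h) : Tree d (h + 1)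

/-- The boxes stored in the leaves of a tree (with multiplicity). -/
def elems : {h : ℕ} → Tree d h → Multiset (Box d)
  | _, .leaf s => s.val
  | _, .node _ child => ∑ i, elems (child i)

open Classical in
/-- The number of nodes visited by the standard traversal for the query point `q`: the root is
visited, and a child `v` of a visited node is visited exactly when `q ∈ R(v)`. -/
noncomputable def cost : {h : ℕ} → Tree d h → (Fin d → ℝ) → ℕ
  | _, .leaf _, _ => 1
  | _, .node _ child, q =>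
    1 + ∑ i, if q ∈ bounding (elems (child i)) then cost (child i) q else 0

/-- The numbers of children (for a leaf, of stored boxes) of all nodes are between `c₁ B` and
`c₂ B`. -/
def NodeOk (c₁ c₂ : ℝ) (B : ℕ) : {h : ℕ} → Tree d h → Prop
  | _, .leaf s => c₁ * B ≤ s.card ∧ s.card ≤ c₂ * B
  | _, .node k child => c₁ * B ≤ k ∧ k ≤ c₂ * B ∧ ∀ i, NodeOk c₁ c₂ B (child i)

/-- The same, but the root is exempt from the lower bound. -/
def RootOk (c₁ c₂ : ℝ) (B : ℕ) : {h : ℕ} → Tree d h → Prop
  | _, .leaf s => s.card ≤ c₂ * B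
  | _, .node k child => k ≤ c₂ * B ∧ ∀ i, NodeOk c₁ c₂ B (child i)

/-- `t` is an R-tree on `S` with block size `B`: every box of `S` is stored exactly once, nothing
else is stored, and the numbers of children are between `c₁ B` and `c₂ B`. -/
def IsRTree (c₁ c₂ : ℝ) (B : ℕ) (S : Finset (Box d)) {h : ℕ} (t : Tree d h) : Prop :=
  elems t = S.val ∧ RootOk c₁ c₂ B t

open Classical in
/-- The number `T` of boxes of `S` which contain `q`. -/
noncomputable def numHit (S : Finset (Box d)) (q : Fin d → ℝ) : ℕ :=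
  (S.filter fun s => q ∈ s.pts).card

/-- Every set of `N` boxes admits an R-tree on which every stabbing query costs
`O(f(N, B) + T / B)`. -/
def IsUpperBound (d : ℕ) (c₁ c₂ : ℝ) (f : ℕ → ℕ → ℝ) : Prop :=
  ∃ C : ℝ, 0 < C ∧ ∀ B N : ℕ, 2 ≤ c₁ * B → 1 ≤ N → ∀ S : Finset (Box d), S.card = N →
    ∃ (h : ℕ) (t : Tree d h), IsRTree c₁ c₂ B S t ∧
      ∀ q, (cost t q : ℝ) ≤ C * (f N B + (numHit S q : ℝ) / B)

/-! ### Leaves -/

lemma bounding_mono {m m' : Multiset (Box d)} (h : ∀ s ∈ m, s ∈ m') :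
    bounding m ⊆ bounding m' :=
  fun _ hq b hb => hq b fun s hs => hb s (h s hs)

open Classical in
/-- The number of leaves whose bounding box contains `q`. -/
noncomputable def hits : {h : ℕ} → Tree d h → (Fin d → ℝ) → ℕ
  | _, .leaf s, q => if q ∈ bounding s.val then 1 else 0
  | _, .node _ child, q => ∑ i, hits (child i) q

lemma mem_elems_node {h k : ℕ} (child : Fin k → Tree d h) (s : Box d) :
    s ∈ elems (.node k child) ↔ ∃ i, s ∈ elems (child i) := by
  rw [elems, Multiset.mem_sum]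
  simp

lemma hits_eq_zero {h : ℕ} (t : Tree d h) (q : Fin d → ℝ) (hq : q ∉ bounding (elems t)) :
    hits t q = 0 := by
  induction t with
  | leaf s =>
    rw [elems] at hq
    rw [hits, if_neg hq]
  | node k child ih =>
    rw [hits, Finset.sum_eq_zero_iff]
    intro i _
    exact ih i fun h' => hq (bounding_mono (fun s hs => (mem_elems_node _ _).2 ⟨i, hs⟩) h')

lemma hits_le_cost {h : ℕ} (t : Tree d h) (q : Fin d → ℝ) : hits t q ≤ cost t q := by
  classical
  induction t with
  | leaf s =>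
    rw [hits, cost]
    split_ifs <;> simp
  | node k child ih =>
    rw [hits, cost]
    refine le_trans ?_ (Nat.le_add_left _ _)
    refine Finset.sum_le_sum fun i _ => ?_
    split_ifs with hq
    · exact ih i
    · exact (hits_eq_zero _ _ hq).le

/-- The number of leaves. -/
def numLeaves : {h : ℕ} → Tree d h → ℕ
  | _, .leaf _ => 1
  | _, .node _ child => ∑ i, numLeaves (child i)

lemma card_elems_le {c₁ c₂ : ℝ} {B h : ℕ} (t : Tree d h) (ht : NodeOk c₁ c₂ B t) :
    ((elems t).card : ℝ) ≤ c₂ * B * numLeaves t := by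
  induction t with
  | leaf s =>
    rw [NodeOk] at ht
    rw [elems, numLeaves]
    simpa using ht.2
  | node k child ih =>
    rw [NodeOk] at ht
    rw [elems, numLeaves, Multiset.card_sum]
    push_cast
    rw [Finset.mul_sum]
    exact Finset.sum_le_sum fun i _ => ih i (ht.2.2 i)

/-- If the total number of hits of every admissible leaf is at least `κ`, then the total number of
hits of a tree is at least `κ` times the number of leaves. -/
lemma sum_hits_ge {ι : Type} (Q : Finset ι) (q : ι → (Fin d → ℝ)) {c₁ c₂ κ : ℝ} {B : ℕ}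
    (S : Finset (Box d)) (hleaf : ∀ s : Finset (Box d), s ⊆ S → c₁ * B ≤ s.card →
      κ ≤ ∑ x ∈ Q, (hits (.leaf s) (q x) : ℝ)) {h : ℕ} (t : Tree d h) (ht : NodeOk c₁ c₂ B t)
    (hS : ∀ s ∈ elems t, s ∈ S) : κ * numLeaves t ≤ ∑ x ∈ Q, (hits t (q x) : ℝ) := by
  induction t with
  | leaf s =>
    rw [NodeOk] at ht
    rw [numLeaves]
    simpa using hleaf s (fun b hb => hS b (by rw [elems]; exact hb)) ht.1
  | node k child ih =>
    rw [NodeOk] at ht
    rw [numLeaves]
    have h1 : ∑ x ∈ Q, ((hits (.node k child) (q x) : ℕ) : ℝ) =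
        ∑ i, ∑ x ∈ Q, (hits (child i) (q x) : ℝ) := by
      rw [Finset.sum_comm]
      refine Finset.sum_congr rfl fun x _ => ?_
      rw [hits]
      push_cast
      rfl
    rw [h1]
    push_cast
    rw [Finset.mul_sum]
    exact Finset.sum_le_sum fun i _ =>
      ih i (ht.2.2 i) fun s hs => hS s ((mem_elems_node _ _).2 ⟨i, hs⟩)

/-! ### The boxes and the queries -/

variable {n : ℕ}

/-- The box of a grid point. -/
def gbox (M : ℕ) (x : Fin (n + 2) → ℕ) : Box (n + 2) where
  lo i := -(x i : ℝ)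
  hi i := ((M - x (i - 1) : ℕ) : ℝ)
  le i := by
    have h1 : (0 : ℝ) ≤ x i := Nat.cast_nonneg _
    have h2 : (0 : ℝ) ≤ ((M - x (i - 1) : ℕ) : ℝ) := Nat.cast_nonneg _
    linarith

lemma gbox_injective (M : ℕ) : Function.Injective (gbox (n := n) M) := by
  intro x y h
  funext i
  have : (gbox M x).lo i = (gbox M y).lo i := by rw [h]
  simp only [gbox, neg_inj, Nat.cast_inj] at this
  exact this

/-- The query point for direction `i` and the layers `c`, `c + 1`. -/
noncomputable def qpt (M : ℕ) (i : Fin (n + 2)) (c : ℕ) : Fin (n + 2) → ℝ := fun j =>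
  if j = i then -((c : ℝ) + 1 / 2) else if j = i + 1 then (M : ℝ) - c - 1 / 2 else 0

lemma succ_ne (i : Fin (n + 2)) : i + 1 ≠ i := by
  intro h
  simp at h

lemma qpt_notMem (M : ℕ) (i : Fin (n + 2)) (c : ℕ) (x : Fin (n + 2) → ℕ) (hx : x i < M) :
    qpt M i c ∉ (gbox M x).pts := by
  intro h
  have h1 := (h i).1
  have h2 := (h (i + 1)).2
  simp only [qpt, gbox, if_true, if_neg (succ_ne i), add_sub_cancel_right] at h1 h2
  rw [Nat.cast_sub hx.le] at h2
  have h3 : (c : ℝ) < x i := by linarith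
  have h4 : c < x i := by exact_mod_cast h3
  have h5 : (c : ℝ) + 1 ≤ x i := by exact_mod_cast h4
  linarith

lemma subset_corners {s b : Box d} (h : s.pts ⊆ b.pts) (j : Fin d) :
    b.lo j ≤ s.lo j ∧ s.hi j ≤ b.hi j :=
  ⟨(h (show s.lo ∈ s.pts from fun i => ⟨le_rfl, s.le i⟩) j).1,
    (h (show s.hi ∈ s.pts from fun i => ⟨s.le i, le_rfl⟩) j).2⟩

lemma qpt_mem_bounding (M : ℕ) (i : Fin (n + 2)) (c : ℕ) (x y : Fin (n + 2) → ℕ)
    (s : Finset (Box (n + 2))) (hxs : gbox M x ∈ s) (hys : gbox M y ∈ s) (hx : x i ≤ c)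
    (hy : c + 1 ≤ y i) (hyM : y i < M) : qpt M i c ∈ bounding s.val := by
  intro b hb j
  obtain ⟨hx1, hx2⟩ := subset_corners (hb _ hxs) j
  obtain ⟨hy1, hy2⟩ := subset_corners (hb _ hys) j
  have hx' : (x i : ℝ) ≤ c := by exact_mod_cast hx
  have hy' : (c : ℝ) + 1 ≤ y i := by exact_mod_cast hy
  have hyM' : (y i : ℝ) < M := by exact_mod_cast hyM
  have hneg : b.lo j ≤ 0 := hx1.trans (by simp [gbox])
  have hpos : 0 ≤ b.hi j := le_trans (by simp only [gbox]; exact Nat.cast_nonneg _) hx2
  have hc0 : (0 : ℝ) ≤ c := Nat.cast_nonneg c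
  unfold qpt
  split_ifs with h1 h2
  · subst h1
    refine ⟨?_, by linarith⟩
    have : b.lo j ≤ -(y j : ℝ) := hy1
    linarith
  · subst h2
    refine ⟨by linarith, ?_⟩
    have h3 : ((M - x i : ℕ) : ℝ) ≤ b.hi (i + 1) := by
      have := hx2
      simp only [gbox, add_sub_cancel_right] at this
      exact this
    have hxM : x i ≤ M := by omega
    rw [Nat.cast_sub hxM] at h3
    linarith
  · exact ⟨hneg, hpos⟩

/-- The queries. -/
def queries (n M : ℕ) : Finset (Fin (n + 2) × ℕ) := Finset.univ ×ˢ Finset.range (M - 1)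

lemma leaf_bound (M b : ℕ) (P : Finset (Fin (n + 2) → ℕ)) (hP : ∀ x ∈ P, ∀ i, x i < M)
    (s : Finset (Box (n + 2))) (hs : ∀ y ∈ s, ∃ x ∈ P, gbox M x = y) (hb : b = s.card)
    (hb2 : 2 ≤ b) :
    (b : ℝ) ^ ((1 : ℝ) / ((n + 2 : ℕ) : ℝ)) / 2 ≤
      ∑ x ∈ queries n M, (hits (.leaf s) (qpt M x.1 x.2) : ℝ) := by
  classical
  -- the grid points of the boxes in the leaf
  set R : Finset (Fin (n + 2) → ℕ) := P.filter fun x => gbox M x ∈ s with hR
  have hRs : s = R.image (gbox M) := by
    ext y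
    rw [Finset.mem_image]
    constructor
    · intro hy
      obtain ⟨x, hx, rfl⟩ := hs y hy
      exact ⟨x, Finset.mem_filter.2 ⟨hx, hy⟩, rfl⟩
    · rintro ⟨x, hx, rfl⟩
      exact (Finset.mem_filter.1 hx).2
  have hRcard : R.card = b := by
    rw [hb, hRs, Finset.card_image_of_injective _ (gbox_injective M)]
  set e : Fin (n + 2) → ℕ := fun i => (R.image fun x => x i).card with he
  have hprod : b ≤ ∏ i, e i := by
    rw [← hRcard, ← Fintype.card_piFinset]
    refine Finset.card_le_card fun x hx => ?_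
    rw [Fintype.mem_piFinset]
    exact fun i => Finset.mem_image_of_mem _ hx
  obtain ⟨i, -, hi⟩ := Finset.exists_max_image (Finset.univ : Finset (Fin (n + 2))) e
    ⟨0, Finset.mem_univ _⟩
  have hpow : b ≤ e i ^ (n + 2) := by
    refine hprod.trans ?_
    have := Finset.prod_le_pow_card Finset.univ e (e i) fun j _ => hi j (Finset.mem_univ _)
    simpa using this
  have he2 : 2 ≤ e i := by
    by_contra hlt
    have h1 : e i ≤ 1 := by omega
    have : e i ^ (n + 2) ≤ 1 := by
      calc e i ^ (n + 2) ≤ 1 ^ (n + 2) := Nat.pow_le_pow_left h1 _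
        _ = 1 := one_pow _
    omega
  -- the largest value of the coordinate
  have hne : (R.image fun x => x i).Nonempty := by
    rw [← Finset.card_pos]
    change 0 < e i
    omega
  set top := (R.image fun x => x i).max' hne with htop
  obtain ⟨y, hyR, hy⟩ := Finset.mem_image.1 ((R.image fun x => x i).max'_mem hne)
  have hyP : y ∈ P := (Finset.mem_filter.1 hyR).1
  have hys : gbox M y ∈ s := (Finset.mem_filter.1 hyR).2
  have hcount : (e i : ℝ) - 1 ≤
      ∑ c ∈ Finset.range (M - 1), (hits (.leaf s) (qpt M i c) : ℝ) := by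
    have h1 : ((R.image fun x => x i).erase top).card = e i - 1 :=
      Finset.card_erase_of_mem ((R.image fun x => x i).max'_mem hne)
    have h2 : (R.image fun x => x i).erase top ⊆ Finset.range (M - 1) := by
      intro c hc
      obtain ⟨hc1, hc2⟩ := Finset.mem_erase.1 hc
      have h3 : c ≤ top := Finset.le_max' _ _ hc2
      have h4 : y i < M := hP y hyP i
      have h5 : top < M := by rw [htop, ← hy]; exact h4
      rw [Finset.mem_range]
      omega
    calc (e i : ℝ) - 1 = ((e i - 1 : ℕ) : ℝ) := by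
          rw [Nat.cast_sub (by omega)]
          simp
      _ = ∑ c ∈ (R.image fun x => x i).erase top, (1 : ℝ) := by
          rw [Finset.sum_const, h1]
          simp
      _ ≤ ∑ c ∈ (R.image fun x => x i).erase top, (hits (.leaf s) (qpt M i c) : ℝ) := by
          refine Finset.sum_le_sum fun c hc => ?_
          obtain ⟨hc1, hc2⟩ := Finset.mem_erase.1 hc
          obtain ⟨x, hxR, hx⟩ := Finset.mem_image.1 hc2
          have h3 : c ≤ top := Finset.le_max' _ _ hc2
          have h6 : c + 1 ≤ y i := by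
            have : y i = top := hy
            omega
          have h7 := qpt_mem_bounding M i c x y s (Finset.mem_filter.1 hxR).2 hys
            (show x i ≤ c from hx.le) h6 (hP y hyP i)
          rw [hits, if_pos h7]
          simp
      _ ≤ ∑ c ∈ Finset.range (M - 1), (hits (.leaf s) (qpt M i c) : ℝ) :=
          Finset.sum_le_sum_of_subset_of_nonneg h2 fun _ _ _ => Nat.cast_nonneg _
  have hroot : (b : ℝ) ^ ((1 : ℝ) / ((n + 2 : ℕ) : ℝ)) ≤ e i := by
    have h1 : (b : ℝ) ≤ (e i : ℝ) ^ (n + 2) := by exact_mod_cast hpow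
    calc (b : ℝ) ^ ((1 : ℝ) / ((n + 2 : ℕ) : ℝ))
        ≤ ((e i : ℝ) ^ (n + 2)) ^ ((1 : ℝ) / ((n + 2 : ℕ) : ℝ)) :=
          Real.rpow_le_rpow (by positivity) h1 (by positivity)
      _ = e i := by
          rw [one_div]
          exact Real.pow_rpow_inv_natCast (Nat.cast_nonneg _) (by omega)
  have he2' : (2 : ℝ) ≤ e i := by exact_mod_cast he2
  calc (b : ℝ) ^ ((1 : ℝ) / ((n + 2 : ℕ) : ℝ)) / 2 ≤ (e i : ℝ) - 1 := by linarith
    _ ≤ ∑ c ∈ Finset.range (M - 1), (hits (.leaf s) (qpt M i c) : ℝ) := hcount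
    _ ≤ ∑ i, ∑ c ∈ Finset.range (M - 1), (hits (.leaf s) (qpt M i c) : ℝ) :=
        Finset.single_le_sum (f := fun i => ∑ c ∈ Finset.range (M - 1),
          (hits (.leaf s) (qpt M i c) : ℝ))
          (fun _ _ => Finset.sum_nonneg fun _ _ => Nat.cast_nonneg _) (Finset.mem_univ i)
    _ = ∑ x ∈ queries n M, (hits (.leaf s) (qpt M x.1 x.2) : ℝ) := by
        rw [queries, Finset.sum_product]

/-- The lower bound, for `d = n + 2`. -/
lemma main_bound (n : ℕ) (c₁ c₂ : ℝ) (h1 : 0 < c₁) (h2 : 0 < c₂) :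
    ∃ κ : ℝ, 0 < κ ∧ ∀ B N : ℕ, 2 ≤ c₁ * B → 1 ≤ N →
      ∃ S : Finset (Box (n + 2)), S.card = N ∧
        ∀ (h : ℕ) (t : Tree (n + 2) h), IsRTree c₁ c₂ B S t →
          ∃ q, (∀ s ∈ S, q ∉ s.pts) ∧
            κ * ((N : ℝ) / B) ^ (1 - 1 / ((n + 2 : ℕ) : ℝ)) ≤ cost t q := by
  classical
  have hd : (0 : ℝ) < ((n + 2 : ℕ) : ℝ) := by positivity
  refine ⟨min (1 / max 1 c₂) (c₁ ^ (1 / ((n + 2 : ℕ) : ℝ)) / (2 * ((n + 2 : ℕ) : ℝ) * c₂)),
    by positivity, fun B N hB hN => ?_⟩
  set D : ℝ := ((n + 2 : ℕ) : ℝ) with hD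
  set M : ℕ := ⌈(N : ℝ) ^ (1 / D)⌉₊ with hM
  have hB0 : (0 : ℝ) < B := by
    by_contra hlt
    have : c₁ * B ≤ 0 := mul_nonpos_of_nonneg_of_nonpos h1.le (not_lt.1 hlt)
    linarith
  have hN0 : (0 : ℝ) < N := by exact_mod_cast hN
  have hD1 : 1 / D ≤ 1 := by
    rw [div_le_one hd]
    have : (2 : ℝ) ≤ D := by rw [hD]; push_cast; linarith [Nat.cast_nonneg (α := ℝ) n]
    linarith
  have hMd : N ≤ M ^ (n + 2) := by
    have h3 : (N : ℝ) ≤ (M : ℝ) ^ (n + 2) := by
      calc (N : ℝ) = ((N : ℝ) ^ (1 / D)) ^ (n + 2) := by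
            rw [one_div]
            exact (Real.rpow_inv_natCast_pow hN0.le (by omega)).symm
        _ ≤ (M : ℝ) ^ (n + 2) := pow_le_pow_left₀ (by positivity) (Nat.le_ceil _) _
    exact_mod_cast h3
  have hM1 : (M : ℝ) < (N : ℝ) ^ (1 / D) + 1 := Nat.ceil_lt_add_one (by positivity)
  obtain ⟨P, hPsub, hPcard⟩ := Finset.exists_subset_card_eq
    (s := Fintype.piFinset fun _ : Fin (n + 2) => Finset.range M) (n := N)
    (by rw [Fintype.card_piFinset_const, Finset.card_range]; exact hMd)
  have hPlt : ∀ x ∈ P, ∀ i, x i < M := fun x hx i =>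
    Finset.mem_range.1 (Fintype.mem_piFinset.1 (hPsub hx) i)
  set S : Finset (Box (n + 2)) := P.image (gbox M) with hS
  have hScard : S.card = N := by
    rw [hS, Finset.card_image_of_injective _ (gbox_injective M), hPcard]
  refine ⟨S, hScard, fun h t ht => ?_⟩
  obtain ⟨hel, hroot⟩ := ht
  cases t with
  | leaf s =>
    rw [RootOk] at hroot
    have hsS : s = S := Finset.val_injective hel
    have hNB : (N : ℝ) / B ≤ max 1 c₂ := by
      rw [div_le_iff₀ hB0]
      rw [hsS, hScard] at hroot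
      exact hroot.trans (mul_le_mul_of_nonneg_right (le_max_right _ _) hB0.le)
    refine ⟨fun _ => -((M : ℝ) + 1), fun b hb hq => ?_, ?_⟩
    · obtain ⟨x, hx, rfl⟩ := Finset.mem_image.1 hb
      have h3 := (hq 0).1
      have h4 : (x 0 : ℝ) < M := by exact_mod_cast hPlt x hx 0
      simp only [gbox] at h3
      linarith
    · rw [cost]
      have h5 : ((N : ℝ) / B) ^ (1 - 1 / D) ≤ max 1 c₂ := by
        calc ((N : ℝ) / B) ^ (1 - 1 / D) ≤ (max 1 c₂) ^ (1 - 1 / D) :=
              Real.rpow_le_rpow (by positivity) hNB (by linarith)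
          _ ≤ (max 1 c₂) ^ (1 : ℝ) :=
              Real.rpow_le_rpow_of_exponent_le (le_max_left _ _)
                (by linarith [show 0 ≤ 1 / D by positivity])
          _ = max 1 c₂ := Real.rpow_one _
      have hmax : 0 < max 1 c₂ := by positivity
      calc min (1 / max 1 c₂) (c₁ ^ (1 / D) / (2 * D * c₂)) * ((N : ℝ) / B) ^ (1 - 1 / D)
          ≤ (1 / max 1 c₂) * max 1 c₂ := by
            refine mul_le_mul (min_le_left _ _) h5 (by positivity) (by positivity)
        _ = ((1 : ℕ) : ℝ) := by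
            field_simp
            norm_num
  | node k child =>
    rw [RootOk] at hroot
    rw [elems] at hel
    obtain ⟨L, hL⟩ : ∃ L : ℝ, L = ∑ i, (numLeaves (child i) : ℝ) := ⟨_, rfl⟩
    have hNL : (N : ℝ) ≤ c₂ * B * L := by
      have h3 : (N : ℝ) = ∑ i, ((elems (child i)).card : ℝ) := by
        have : S.val.card = N := hScard
        rw [← this, ← hel, Multiset.card_sum]
        push_cast
        rfl
      rw [h3, hL, Finset.mul_sum]
      exact Finset.sum_le_sum fun i _ => card_elems_le _ (hroot.2 i)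
    have hLpos : 0 < L := by
      by_contra hlt
      have : c₂ * B * L ≤ 0 := mul_nonpos_of_nonneg_of_nonpos (by positivity) (not_lt.1 hlt)
      linarith
    obtain ⟨κ, hκ⟩ : ∃ κ : ℝ, κ = (c₁ * B) ^ (1 / D) / 2 := ⟨_, rfl⟩
    have hκpos : 0 < κ := by rw [hκ]; positivity
    have hmemS : ∀ i, ∀ s ∈ elems (child i), s ∈ S := by
      intro i s hs
      have : s ∈ S.val := by
        rw [← hel]
        exact Multiset.mem_sum.2 ⟨i, Finset.mem_univ _, hs⟩
      exact this
    have hsum : κ * L ≤ ∑ x ∈ queries n M,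
        (hits (.node k child) (qpt M x.1 x.2) : ℝ) := by
      have h3 : ∑ x ∈ queries n M, ((hits (.node k child) (qpt M x.1 x.2) : ℕ) : ℝ) =
          ∑ i, ∑ x ∈ queries n M, (hits (child i) (qpt M x.1 x.2) : ℝ) := by
        rw [Finset.sum_comm]
        refine Finset.sum_congr rfl fun x _ => ?_
        rw [hits]
        push_cast
        rfl
      rw [h3, hL, Finset.mul_sum]
      refine Finset.sum_le_sum fun i _ => ?_
      refine sum_hits_ge (queries n M) (fun x => qpt M x.1 x.2) S (fun s hs hcs => ?_) (child i)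
        (hroot.2 i) (hmemS i)
      have hs2 : 2 ≤ s.card := by
        have : (2 : ℝ) ≤ s.card := hB.trans hcs
        exact_mod_cast this
      have h4 := leaf_bound M s.card P hPlt s (fun y hy => by
        obtain ⟨x, hx, hxy⟩ := Finset.mem_image.1 (hs hy)
        exact ⟨x, hx, hxy⟩) rfl hs2
      refine le_trans ?_ h4
      rw [hκ]
      have h5 : (c₁ * B) ^ (1 / D) ≤ (s.card : ℝ) ^ (1 / D) :=
        Real.rpow_le_rpow (by positivity) hcs (by positivity)
      linarith
    have hQcard : ((queries n M).card : ℝ) = D * ((M - 1 : ℕ) : ℝ) := by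
      rw [queries, Finset.card_product, Finset.card_univ, Fintype.card_fin, Finset.card_range,
        hD]
      push_cast
      ring
    have hQpos : 0 < ((queries n M).card : ℝ) := by
      rw [Nat.cast_pos, Finset.card_pos]
      by_contra hemp
      rw [Finset.not_nonempty_iff_eq_empty.1 hemp, Finset.sum_empty] at hsum
      have : 0 < κ * L := by positivity
      linarith
    have hQle : ((queries n M).card : ℝ) ≤ D * (N : ℝ) ^ (1 / D) := by
      rw [hQcard]
      refine mul_le_mul_of_nonneg_left ?_ hd.le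
      have hMpos : 1 ≤ M := by
        by_contra hlt
        have hM0 : M = 0 := by omega
        rw [hM0] at hMd
        simp at hMd
        omega
      rw [Nat.cast_sub hMpos]
      push_cast
      linarith
    obtain ⟨x, hx, hxc⟩ := Finset.exists_le_of_sum_le (s := queries n M)
      (f := fun _ => κ * L / ((queries n M).card : ℝ))
      (g := fun x => (hits (.node k child) (qpt M x.1 x.2) : ℝ)) (by
        rw [← Finset.card_pos]
        exact_mod_cast hQpos) (by
        rw [Finset.sum_const, nsmul_eq_mul, mul_div_cancel₀ _ hQpos.ne']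
        exact hsum)
    refine ⟨qpt M x.1 x.2, fun b hb hq => ?_, ?_⟩
    · obtain ⟨y, hy, rfl⟩ := Finset.mem_image.1 hb
      exact qpt_notMem M x.1 x.2 y (hPlt y hy x.1) hq
    · have h6 : κ * L / ((queries n M).card : ℝ) ≤ cost (.node k child) (qpt M x.1 x.2) :=
        hxc.trans (by exact_mod_cast hits_le_cost _ _)
      refine le_trans ?_ h6
      have hND : (0 : ℝ) < (N : ℝ) ^ (1 / D) := by positivity
      have hBD : (0 : ℝ) < (B : ℝ) ^ (1 / D) := by positivity
      have h7 : ((N : ℝ) / B) ^ (1 - 1 / D) =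
          (N : ℝ) / B * ((B : ℝ) ^ (1 / D) / (N : ℝ) ^ (1 / D)) := by
        rw [Real.rpow_sub (by positivity), Real.rpow_one, Real.div_rpow hN0.le hB0.le]
        field_simp
      calc min (1 / max 1 c₂) (c₁ ^ (1 / D) / (2 * D * c₂)) * ((N : ℝ) / B) ^ (1 - 1 / D)
          ≤ (c₁ ^ (1 / D) / (2 * D * c₂)) * ((N : ℝ) / B) ^ (1 - 1 / D) :=
            mul_le_mul_of_nonneg_right (min_le_right _ _) (by positivity)
        _ = (c₁ ^ (1 / D) * (B : ℝ) ^ (1 / D) / 2) * ((N : ℝ) / (c₂ * B)) /
              (D * (N : ℝ) ^ (1 / D)) := by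
            rw [h7]
            field_simp
        _ = κ * ((N : ℝ) / (c₂ * B)) / (D * (N : ℝ) ^ (1 / D)) := by
            rw [hκ, Real.mul_rpow h1.le hB0.le]
        _ ≤ κ * L / (D * (N : ℝ) ^ (1 / D)) := by
            refine div_le_div_of_nonneg_right (mul_le_mul_of_nonneg_left ?_ hκpos.le)
              (by positivity)
            rw [div_le_iff₀ (by positivity)]
            linarith
        _ ≤ κ * L / ((queries n M).card : ℝ) :=
            div_le_div_of_nonneg_left (by positivity) hQpos hQle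

/-- **Stabbing queries on R-trees.** Let `d ≥ 2`, and let the nodes have between `c₁ B` and
`c₂ B` children, where `c₁ B ≥ 2`. For every `N ≥ 1` there is a set of `N` axis-parallel boxes such
that on every R-tree some stabbing query with empty output (`T = 0`) visits at least
`κ (N / B) ^ (1 - 1 / d)` nodes, where `κ > 0` depends on `d, c₁, c₂` only. Consequently every
`f` such that each set of `N` boxes admits an R-tree on which all stabbing queries cost
`O(f(N, B) + T / B)` is at least `κ' (N / B) ^ (1 - 1 / d)`. -/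
theorem result (d : ℕ) (hd : 2 ≤ d) (c₁ c₂ : ℝ) (h₁ : 0 < c₁) (h₂ : 0 < c₂) :
    (∃ κ : ℝ, 0 < κ ∧ ∀ B N : ℕ, 2 ≤ c₁ * B → 1 ≤ N →
      ∃ S : Finset (Box d), S.card = N ∧
        ∀ (h : ℕ) (t : Tree d h), IsRTree c₁ c₂ B S t →
          ∃ q : Fin d → ℝ, (∀ s ∈ S, q ∉ s.pts) ∧
            κ * ((N : ℝ) / B) ^ (1 - 1 / (d : ℝ)) ≤ cost t q) ∧
    (∀ f : ℕ → ℕ → ℝ, IsUpperBound d c₁ c₂ f →
      ∃ κ : ℝ, 0 < κ ∧ ∀ B N : ℕ, 2 ≤ c₁ * B → 1 ≤ N →
        κ * ((N : ℝ) / B) ^ (1 - 1 / (d : ℝ)) ≤ f N B) := by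
  obtain ⟨n, rfl⟩ : ∃ n, d = n + 2 := ⟨d - 2, by omega⟩
  obtain ⟨κ, hκ, h⟩ := main_bound n c₁ c₂ h₁ h₂
  refine ⟨⟨κ, hκ, h⟩, fun f hf => ?_⟩
  obtain ⟨C, hC, hf⟩ := hf
  refine ⟨κ / C, by positivity, fun B N hB hN => ?_⟩
  obtain ⟨S, hS, hS'⟩ := h B N hB hN
  obtain ⟨m, t, ht, hcost⟩ := hf B N hB hN S hS
  obtain ⟨q, hq, hq'⟩ := hS' m t ht
  have h0 : numHit S q = 0 := by
    classical
    unfold numHit
    rw [Finset.card_eq_zero, Finset.filter_eq_empty_iff]
    exact fun s hs => hq s hs
  have h1 := hq'.trans (hcost q)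
  rw [h0] at h1
  simp only [Nat.cast_zero, zero_div, add_zero] at h1
  rw [div_mul_eq_mul_div, div_le_iff₀ hC]
  linarith

end Pool.Agent.Results.MP_a7848c_lc.StabbingLowerBound
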